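import Pool.Agent.H82.AS.Targets2

/-!
Tail of the height of the admissible triples (`MP_7ecdd4_nt`): row SQU.
-/

set_option autoImplicit false

open Finset

open Pool.Agent.H38.RB Pool.Agent.H38.PS Pool.Agent.H82.AS

namespace Pool.Agent.H96.AS

theorem ex_nonneg (n : ℕ) : 0 ≤ ex n := by
  unfold ex
  positivity

theorem sum_rpow_le {a : ℝ} (ha : 0 < a) (ha1 : a ≤ 1) (N : ℕ) :
    ∑ r ∈ Icc 1 N, (r : ℝ) ^ (-1 + a) ≤ 1 / a * (N : ℝ) ^ a := by
  induction N with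
  | zero => simp [Real.zero_rpow ha.ne']
  | succ n ih =>
    rw [Finset.sum_Icc_succ_top (by omega)]
    have hn : (0 : ℝ) ≤ n := Nat.cast_nonneg n
    have hn1 : (0 : ℝ) < (n : ℝ) + 1 := by positivity
    have h1 : (1 + -(1 / ((n : ℝ) + 1))) ^ a ≤ 1 + a * -(1 / ((n : ℝ) + 1)) := by
      refine rpow_one_add_le_one_add_mul_self ?_ ha.le ha1
      rw [neg_le_neg_iff, div_le_one hn1]
      linarith
    have h2 : 1 + -(1 / ((n : ℝ) + 1)) = n / ((n : ℝ) + 1) := by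
      field_simp
      ring
    rw [h2, Real.div_rpow hn hn1.le, div_le_iff₀ (Real.rpow_pos_of_pos hn1 _)] at h1
    have h3 : ((n : ℝ) + 1) ^ (-1 + a) = 1 / ((n : ℝ) + 1) * ((n : ℝ) + 1) ^ a := by
      rw [Real.rpow_add hn1, Real.rpow_neg hn1.le, Real.rpow_one, one_div]
    push_cast
    rw [h3]
    have h4 : 1 / a * (n : ℝ) ^ a ≤
        1 / a * ((1 + a * -(1 / ((n : ℝ) + 1))) * ((n : ℝ) + 1) ^ a) :=
      mul_le_mul_of_nonneg_left h1 (by positivity)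
    have h5 : 1 / a * ((1 + a * -(1 / ((n : ℝ) + 1))) * ((n : ℝ) + 1) ^ a) =
        1 / a * ((n : ℝ) + 1) ^ a - 1 / ((n : ℝ) + 1) * ((n : ℝ) + 1) ^ a := by
      field_simp
      ring
    linarith

/-- a dyadic block -/
theorem block (hrdc : T_RDC) (hsqb : T_SQB) {t : ℝ} (ht : 0 < t) (ht1 : t ≤ 1 / 6) :
    ∃ C : ℝ, 0 < C ∧ ∀ (W : ℝ) (F : Finset ℕ), 1 ≤ W →
      (∀ D ∈ F, Sqf D ∧ 1 ≤ D ∧ (D : ℝ) ≤ W ∧ W / 2 < (D : ℝ)) →
      ∑ D ∈ F, (D : ℝ) ^ (t / 3) * ex D ^ (1 - 2 * t) / D ≤ C * W ^ (-(t / 3)) := by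
  classical
  obtain ⟨C, hC, hcard⟩ := hrdc (t / 3) (by positivity)
  refine ⟨C / t, by positivity, fun W F hW hF => ?_⟩
  have hW0 : (0 : ℝ) < W := by linarith
  set R : ℕ := ⌊W ^ (1 / 2 : ℝ)⌋₊ with hR
  have hWh : (0 : ℝ) ≤ W ^ (1 / 2 : ℝ) := Real.rpow_nonneg hW0.le _
  have hRle : (R : ℝ) ≤ W ^ (1 / 2 : ℝ) := Nat.floor_le hWh
  have hmaps : ∀ D ∈ F, pd D.primeFactors ∈ Icc 1 R := by
    intro D hD
    obtain ⟨h1, h2, h3, -⟩ := hF D hD
    have h4 := (hsqb D h2).2.2.2.2.2.2 h1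
    rw [Finset.mem_Icc]
    constructor
    · unfold pd
      exact Nat.one_le_iff_ne_zero.2 (Finset.prod_ne_zero_iff.2 fun p hp =>
        (Nat.prime_of_mem_primeFactors hp).ne_zero)
    · rw [hR]
      refine Nat.le_floor ?_
      have h5 : ((pd D.primeFactors : ℕ) : ℝ) ^ 2 ≤ W := by
        refine le_trans ?_ h3
        exact_mod_cast h4
      have h6 := Real.rpow_le_rpow (sq_nonneg _) h5 (by norm_num : (0 : ℝ) ≤ 1 / 2)
      rwa [← Real.sqrt_eq_rpow, Real.sqrt_sq (Nat.cast_nonneg _)] at h6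
  have hfib : ∀ r ∈ Icc 1 R,
      ((F.filter fun D => pd D.primeFactors = r).card : ℝ) ≤ C * W ^ (t / 3) := by
    intro r _
    refine hcard r W _ hW fun n hn => ?_
    rw [Finset.mem_filter] at hn
    exact ⟨(hF n hn.1).2.1, (hF n hn.1).2.2.1, hn.2⟩
  have hterm : ∀ D ∈ F, (D : ℝ) ^ (t / 3) * ex D ^ (1 - 2 * t) / D ≤
      ((pd D.primeFactors : ℕ) : ℝ) ^ (-1 + 2 * t) * (2 * W ^ (t / 3 - 2 * t)) := by
    intro D hD
    obtain ⟨-, h2, -, h3⟩ := hF D hD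
    have hD1 : (0 : ℝ) < D := by exact_mod_cast h2
    have hr1 : (0 : ℝ) < ((pd D.primeFactors : ℕ) : ℝ) := by
      have := (Finset.mem_Icc.1 (hmaps D hD)).1
      exact_mod_cast this
    have h1 : (D : ℝ) ^ (t / 3) * ex D ^ (1 - 2 * t) / D =
        ((pd D.primeFactors : ℕ) : ℝ) ^ (-1 + 2 * t) * (D : ℝ) ^ (t / 3 - 2 * t) := by
      have e1 : (D : ℝ) ^ (t / 3 - 2 * t) = (D : ℝ) ^ (t / 3) * (D : ℝ) ^ (1 - 2 * t) / D := by
        rw [← Real.rpow_add hD1, ← Real.rpow_sub_one hD1.ne']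
        congr 1
        ring
      unfold ex
      rw [Real.div_rpow hD1.le hr1.le, show (-1 + 2 * t : ℝ) = -(1 - 2 * t) by ring,
        Real.rpow_neg hr1.le, e1]
      ring
    rw [h1]
    refine mul_le_mul_of_nonneg_left ?_ (Real.rpow_nonneg hr1.le _)
    have h4 : (D : ℝ) ^ (t / 3 - 2 * t) ≤ (W / 2) ^ (t / 3 - 2 * t) :=
      Real.rpow_le_rpow_of_nonpos (by positivity) h3.le (by linarith)
    refine h4.trans ?_
    rw [Real.div_rpow hW0.le (by norm_num), div_eq_mul_inv, mul_comm]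
    refine mul_le_mul_of_nonneg_right ?_ (Real.rpow_nonneg hW0.le _)
    rw [← Real.rpow_neg (by norm_num)]
    calc (2 : ℝ) ^ (-(t / 3 - 2 * t)) ≤ 2 ^ (1 : ℝ) :=
          Real.rpow_le_rpow_of_exponent_le (by norm_num) (by linarith)
      _ = 2 := Real.rpow_one 2
  have h1 : ∑ D ∈ F, (D : ℝ) ^ (t / 3) * ex D ^ (1 - 2 * t) / D ≤
      ∑ D ∈ F, ((pd D.primeFactors : ℕ) : ℝ) ^ (-1 + 2 * t) * (2 * W ^ (t / 3 - 2 * t)) :=
    Finset.sum_le_sum hterm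
  refine h1.trans ?_
  rw [← Finset.sum_fiberwise_of_maps_to hmaps]
  have hK : 0 ≤ 2 * W ^ (t / 3 - 2 * t) := by positivity
  have h2 : ∀ r ∈ Icc 1 R, ∑ D ∈ F.filter (fun D => pd D.primeFactors = r),
      ((pd D.primeFactors : ℕ) : ℝ) ^ (-1 + 2 * t) * (2 * W ^ (t / 3 - 2 * t)) ≤
      (C * W ^ (t / 3) * (2 * W ^ (t / 3 - 2 * t))) * (r : ℝ) ^ (-1 + 2 * t) := by
    intro r hr
    have h4 : ∑ D ∈ F.filter (fun D => pd D.primeFactors = r),
        ((pd D.primeFactors : ℕ) : ℝ) ^ (-1 + 2 * t) * (2 * W ^ (t / 3 - 2 * t)) =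
        ∑ D ∈ F.filter (fun D => pd D.primeFactors = r),
        (r : ℝ) ^ (-1 + 2 * t) * (2 * W ^ (t / 3 - 2 * t)) := by
      refine Finset.sum_congr rfl fun D hD => ?_
      rw [(Finset.mem_filter.1 hD).2]
    rw [h4, Finset.sum_const, nsmul_eq_mul]
    have h5 : 0 ≤ (r : ℝ) ^ (-1 + 2 * t) * (2 * W ^ (t / 3 - 2 * t)) :=
      mul_nonneg (Real.rpow_nonneg (Nat.cast_nonneg _) _) hK
    calc ((F.filter fun D => pd D.primeFactors = r).card : ℝ) *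
          ((r : ℝ) ^ (-1 + 2 * t) * (2 * W ^ (t / 3 - 2 * t))) ≤
          (C * W ^ (t / 3)) * ((r : ℝ) ^ (-1 + 2 * t) * (2 * W ^ (t / 3 - 2 * t))) :=
        mul_le_mul_of_nonneg_right (hfib r hr) h5
      _ = _ := by ring
  refine (Finset.sum_le_sum h2).trans ?_
  rw [← Finset.mul_sum]
  have h6 : ∑ r ∈ Icc 1 R, (r : ℝ) ^ (-1 + 2 * t) ≤ 1 / (2 * t) * W ^ t := by
    refine (sum_rpow_le (by positivity) (by linarith) R).trans ?_
    refine mul_le_mul_of_nonneg_left ?_ (by positivity)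
    have h7 := Real.rpow_le_rpow (Nat.cast_nonneg R) hRle (by positivity : (0 : ℝ) ≤ 2 * t)
    rw [← Real.rpow_mul hW0.le, show (1 / 2 : ℝ) * (2 * t) = t by ring] at h7
    exact h7
  calc (C * W ^ (t / 3) * (2 * W ^ (t / 3 - 2 * t))) * ∑ r ∈ Icc 1 R, (r : ℝ) ^ (-1 + 2 * t)
      ≤ (C * W ^ (t / 3) * (2 * W ^ (t / 3 - 2 * t))) * (1 / (2 * t) * W ^ t) :=
        mul_le_mul_of_nonneg_left h6 (by positivity)
    _ = C / t * (W ^ (t / 3) * W ^ (t / 3 - 2 * t) * W ^ t) := by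
        field_simp
    _ = C / t * W ^ (-(t / 3)) := by
        rw [← Real.rpow_add hW0, ← Real.rpow_add hW0]
        congr 2
        ring

theorem pf_SQU (hrdc : T_RDC) (hsqb : T_SQB) : T_SQU := by
  classical
  intro θ hθ0 hθ1
  set s : ℝ := (1 - θ) / 6 with hs
  have hs0 : 0 < s := by
    rw [hs]
    linarith
  have hs1 : s ≤ 1 / 6 := by
    rw [hs]
    linarith
  obtain ⟨C, hC, h⟩ := block hrdc hsqb hs0 hs1
  set r : ℝ := (2 : ℝ) ^ (-(s / 3)) with hr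
  have hr0 : 0 < r := Real.rpow_pos_of_pos (by norm_num) _
  have hr1 : r < 1 := Real.rpow_lt_one_of_one_lt_of_neg (by norm_num) (by linarith)
  refine ⟨s / 3, C * (1 - r)⁻¹, by positivity, mul_pos hC (inv_pos.2 (sub_pos.2 hr1)), ?_⟩
  intro F hF
  have hθs : (2 + θ) / 3 = 1 - 2 * s := by
    rw [hs]
    ring
  rw [hθs]
  have hex : ∀ D : ℕ, ∃ j : ℕ, (D : ℝ) ≤ 2 ^ j := by
    intro D
    obtain ⟨j, hj⟩ := pow_unbounded_of_one_lt (D : ℝ) (by norm_num : (1 : ℝ) < 2)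
    exact ⟨j, hj.le⟩
  set g : ℕ → ℕ := fun D => Nat.find (hex D) with hg
  have hg1 : ∀ D : ℕ, (D : ℝ) ≤ 2 ^ (g D) := fun D => Nat.find_spec (hex D)
  have hg2 : ∀ D ∈ F, 2 ^ (g D) / 2 < (D : ℝ) := by
    intro D hD
    rcases Nat.eq_zero_or_pos (g D) with h0 | h0
    · rw [h0, pow_zero]
      have h1 : (1 : ℝ) ≤ D := by exact_mod_cast (hF D hD).2
      linarith
    · have h1 : ¬ ((D : ℝ) ≤ 2 ^ (g D - 1)) := Nat.find_min (hex D) (Nat.sub_lt h0 one_pos)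
      have h2 : (2 : ℝ) ^ (g D) = 2 ^ (g D - 1) * 2 := by
        rw [← pow_succ, Nat.sub_add_cancel h0]
      rw [h2]
      push Not at h1
      linarith
  set u : ℕ → ℝ := fun D => (D : ℝ) ^ (s / 3) * ex D ^ (1 - 2 * s) / D with hu
  set J : ℕ := F.sup g + 1 with hJ
  have hmaps : ∀ D ∈ F, g D ∈ range J := by
    intro D hD
    rw [mem_range, hJ]
    exact Nat.lt_succ_of_le (le_sup (f := g) hD)
  have hsum := sum_fiberwise_of_maps_to hmaps u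
  have hblock : ∀ j, ∑ D ∈ F.filter (fun D => g D = j), u D ≤ C * r ^ j := by
    intro j
    have hW1 : (1 : ℝ) ≤ 2 ^ j := one_le_pow₀ (by norm_num)
    have h1 := h (2 ^ j) (F.filter (fun D => g D = j)) hW1 (by
      intro D hD
      rw [mem_filter] at hD
      refine ⟨(hF D hD.1).1, (hF D hD.1).2, ?_, ?_⟩
      · rw [← hD.2]
        exact hg1 D
      · rw [← hD.2]
        exact hg2 D hD.1)
    have h6 : ((2 : ℝ) ^ j) ^ (-(s / 3)) = r ^ j := by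
      rw [hr, ← Real.rpow_natCast, ← Real.rpow_natCast, ← Real.rpow_mul (by norm_num),
        ← Real.rpow_mul (by norm_num), mul_comm]
    rw [h6] at h1
    exact h1
  change ∑ D ∈ F, u D ≤ _
  rw [← hsum]
  calc ∑ j ∈ range J, ∑ D ∈ F.filter (fun D => g D = j), u D
      ≤ ∑ j ∈ range J, C * r ^ j := sum_le_sum fun j _ => hblock j
    _ = C * ∑ j ∈ range J, r ^ j := by rw [mul_sum]
    _ ≤ C * (1 - r)⁻¹ := by
        refine mul_le_mul_of_nonneg_left ?_ hC.le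
        rw [geom_sum_eq hr1.ne, ← neg_div_neg_eq, neg_sub, neg_sub, div_eq_mul_inv]
        have h7 : 0 ≤ (1 - r)⁻¹ := inv_nonneg.2 (sub_nonneg.2 hr1.le)
        have h8 : 1 - r ^ J ≤ 1 := by
          have := pow_nonneg hr0.le J
          linarith
        exact mul_le_of_le_one_left h7 h8

end Pool.Agent.H96.AS
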